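import Pool.Agent.J4H22.IX.Stm2

/-!
# From random to deterministic structures (piece RAS of project IX of helper22)
-/

set_option autoImplicit false

namespace Pool.Agent.J4H36.IX

open Pool.Agent.J4H22.IX (RStructure Structure RForm Form OkWeak S_RAS)

/-- a smaller advantage -/
theorem rmono {O : Type} {Ok : Finset ℕ → Finset ℕ → ℕ → O → Prop} {n N s w t : ℕ} {δ δ' : ℝ}
    (h : δ' ≤ δ) (hR : RStructure O Ok n N s w t δ) : RStructure O Ok n N s w t δ' := by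
  obtain ⟨Ω, i, μ, Q, h0, h1, h2, h3⟩ := hR
  refine ⟨Ω, i, μ, Q, h0, h1, h2, fun A B hA hB hA2 hB2 => ?_⟩
  obtain ⟨m, hm⟩ := h3 A B hA hB hA2 hB2
  exact ⟨m, fun z => le_trans (by linarith) (hm z)⟩

/-- a power of the logarithm is small -/
theorem polylog (m : ℕ) (η : ℝ) (hη : 0 < η) : ∃ K : ℕ, ∀ n : ℕ, 2 ≤ n →
    ((Nat.clog 2 n : ℕ) : ℝ) ^ m ≤ K * (n : ℝ) ^ η := by
  obtain ⟨c1, hc1⟩ : ∃ c1 : ℝ, c1 = 2 / Real.log 2 := ⟨_, rfl⟩
  have hl2 : 0 < Real.log 2 := Real.log_pos (by norm_num)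
  have hc10 : 0 < c1 := by rw [hc1]; positivity
  obtain ⟨η', hη'⟩ : ∃ η' : ℝ, η' = η / (m + 1) := ⟨_, rfl⟩
  have hη0 : 0 < η' := by rw [hη']; positivity
  obtain ⟨K, hK⟩ := exists_nat_ge ((c1 / η') ^ m)
  refine ⟨K, fun n hn => ?_⟩
  have hn0 : (0 : ℝ) ≤ n := Nat.cast_nonneg n
  have hn1 : (1 : ℝ) ≤ n := by exact_mod_cast (by omega : 1 ≤ n)
  have h1 : ((Nat.clog 2 n : ℕ) : ℝ) ≤ c1 * Real.log n := by
    have h2 : 2 ^ (Nat.clog 2 n).pred < n := Nat.pow_pred_clog_lt_self (by norm_num) (by omega)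
    have h3 : ((Nat.clog 2 n).pred : ℝ) * Real.log 2 ≤ Real.log n := by
      rw [← Real.log_pow]
      exact Real.log_le_log (by positivity) (by exact_mod_cast h2.le)
    have h4 : Real.log 2 ≤ Real.log n := Real.log_le_log (by norm_num) (by exact_mod_cast hn)
    have h5 : ((Nat.clog 2 n : ℕ) : ℝ) ≤ ((Nat.clog 2 n).pred : ℝ) + 1 := by
      exact_mod_cast (by have := Nat.pred_eq_sub_one (n := Nat.clog 2 n); omega :
        Nat.clog 2 n ≤ (Nat.clog 2 n).pred + 1)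
    rw [hc1, div_mul_eq_mul_div, le_div_iff₀ hl2]
    nlinarith
  have h2 : Real.log n ≤ (n : ℝ) ^ η' / η' := Real.log_le_rpow_div hn0 hη0
  have h3 : ((Nat.clog 2 n : ℕ) : ℝ) ≤ (c1 / η') * (n : ℝ) ^ η' := by
    refine h1.trans ((mul_le_mul_of_nonneg_left h2 hc10.le).trans (le_of_eq ?_))
    ring
  calc ((Nat.clog 2 n : ℕ) : ℝ) ^ m ≤ ((c1 / η') * (n : ℝ) ^ η') ^ m :=
        pow_le_pow_left₀ (Nat.cast_nonneg _) h3 m
    _ = (c1 / η') ^ m * (n : ℝ) ^ (η' * m) := by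
        rw [mul_pow, ← Real.rpow_natCast ((n : ℝ) ^ η') m, ← Real.rpow_mul hn0]
    _ ≤ K * (n : ℝ) ^ η := by
        refine mul_le_mul hK (Real.rpow_le_rpow_of_exponent_le hn1 ?_) (by positivity)
          (Nat.cast_nonneg K)
        rw [hη', div_mul_eq_mul_div, div_le_iff₀ (by positivity)]
        nlinarith [(Nat.cast_nonneg m : (0 : ℝ) ≤ m)]

theorem t_RAS : S_RAS := by
  intro hAMP hDER hCHE hNEW hMAJ hTRE hIDX c N hc hN ⟨ε, C, hε, hR⟩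
  obtain ⟨ε1, hε1⟩ : ∃ ε1 : ℝ, ε1 = min ε 1 := ⟨_, rfl⟩
  have hε10 : 0 < ε1 := by rw [hε1]; exact lt_min hε one_pos
  have hε1a : ε1 ≤ ε := by rw [hε1]; exact min_le_left _ _
  have hε1b : ε1 ≤ 1 := by rw [hε1]; exact min_le_right _ _
  obtain ⟨K, hK⟩ := polylog (2 * C + 1) (ε1 / 2) (by positivity)
  refine ⟨ε1 / 2, 1024 * (c + 1) * (C + 1) ^ 3 * (K + 1) + 3 * C + 1, by positivity,
    fun n hn => ?_⟩
  obtain ⟨s, t, hs, ht, hst⟩ := hR n hn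
  obtain ⟨L, hL⟩ : ∃ L, L = Nat.clog 2 n := ⟨_, rfl⟩
  have hL1 : 1 ≤ L := by rw [hL]; exact Nat.clog_pos (by norm_num) hn
  have hL1R : (1 : ℝ) ≤ L := by exact_mod_cast hL1
  have hKn := hK n hn
  rw [← hL] at ht hst hKn ⊢
  have hn1 : (1 : ℝ) ≤ n := by exact_mod_cast (by omega : 1 ≤ n)
  -- amplification
  obtain ⟨δ, hδ⟩ : ∃ δ : ℝ, δ = 1 / ((C + 1) * (L : ℝ) ^ C) := ⟨_, rfl⟩
  have hLC : (1 : ℝ) ≤ (L : ℝ) ^ C := one_le_pow₀ hL1R
  have hδ0 : 0 < δ := by rw [hδ]; positivity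
  have hδ1 : δ ≤ 1 := by
    rw [hδ, div_le_one (by positivity)]
    nlinarith [(Nat.cast_nonneg C : (0 : ℝ) ≤ C)]
  obtain ⟨k, hk⟩ : ∃ k : ℕ, k = 256 * (C + 1) ^ 2 * L ^ (2 * C) := ⟨_, rfl⟩
  have hkδ : (k : ℝ) * δ ^ 2 = 256 := by
    rw [hk, hδ]
    push_cast
    have h1 : ((C : ℝ) + 1) ≠ 0 := by positivity
    have h2 : (L : ℝ) ^ C ≠ 0 := by positivity
    rw [div_pow, mul_pow, pow_mul', one_pow]
    field_simp
  have hamp : (1 - 4 * (δ / 4) ^ 2) ^ k ≤ 1 / 64 := by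
    have h1 : (1 - 4 * (δ / 4) ^ 2) ^ k ≤ Real.exp (-64) := by
      have h2 : 1 - 4 * (δ / 4) ^ 2 ≤ Real.exp (-(δ ^ 2 / 4)) := by
        have := Real.add_one_le_exp (-(δ ^ 2 / 4))
        linarith
      refine (pow_le_pow_left₀ (by nlinarith) h2 k).trans (le_of_eq ?_)
      rw [← Real.exp_nat_mul]
      congr 1
      linear_combination (-1 / 4 : ℝ) * hkδ
    have h3 : (64 : ℝ) + 1 ≤ Real.exp 64 := Real.add_one_le_exp 64
    rw [Real.exp_neg] at h1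
    refine h1.trans ?_
    rw [← one_div]
    exact one_div_le_one_div_of_le (by norm_num) (by linarith)
  have h1 := hAMP hCHE hTRE hIDX n (N n) s (c * L) t k (δ / 4) (by positivity) (by linarith) hamp
    (rmono (by rw [← hδ]; linarith) hst)
  have hw8 : 8 ≤ c * L := le_trans hc (Nat.le_mul_of_pos_right c hL1)
  have hn8 : n ^ 8 ≤ 2 ^ (c * L) := by
    have h2 : n ≤ 2 ^ L := by rw [hL]; exact Nat.le_pow_clog (by norm_num) n
    calc n ^ 8 ≤ (2 ^ L) ^ 8 := Nat.pow_le_pow_left h2 8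
      _ = 2 ^ (L * 8) := by rw [pow_mul]
      _ ≤ 2 ^ (c * L) := Nat.pow_le_pow_right (by norm_num) (by nlinarith)
  have h2 := hDER hNEW hMAJ hTRE hIDX n (N n) (2 * k * s) (c * L) (2 * k * t) hw8 hn8
    (by rw [hL]; exact hN n hn) h1
  refine ⟨2 * (c * L + 1) * (2 * k * s + 2), 2 * (c * L + 1) * (2 * k * t + 2), ?_, ?_, h2⟩
  · have hb : ((2 * (c * L + 1) * (2 * k * s + 2) : ℕ) : ℝ) ≤
        1024 * (c + 1) * (C + 1) ^ 2 * (L : ℝ) ^ (2 * C + 1) * (s + 1) := by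
      have hLs : 1 ≤ L ^ (2 * C) := Nat.one_le_pow _ _ hL1
      have hk1 : 1 ≤ k := by rw [hk]; exact Nat.mul_pos (by positivity) hLs
      have e1 : c * L + 1 ≤ (c + 1) * L := by nlinarith
      have e2 : 2 * k * s + 2 ≤ 2 * k * (s + 1) := by nlinarith
      have e3 : 2 * (c * L + 1) * (2 * k * s + 2) ≤ 2 * ((c + 1) * L) * (2 * k * (s + 1)) :=
        Nat.mul_le_mul (Nat.mul_le_mul_left 2 e1) e2
      have e4 : 2 * ((c + 1) * L) * (2 * k * (s + 1)) =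
          1024 * (c + 1) * (C + 1) ^ 2 * L ^ (2 * C + 1) * (s + 1) := by
        rw [hk, pow_succ]; ring
      rw [e4] at e3
      exact_mod_cast e3
    refine hb.trans ?_
    have hs2 : (s : ℝ) + 1 ≤ (C + 1) * (n : ℝ) ^ (2 - ε1) := by
      have f1 : (n : ℝ) ^ (2 - ε) ≤ (n : ℝ) ^ (2 - ε1) :=
        Real.rpow_le_rpow_of_exponent_le hn1 (by linarith)
      have f2 : (1 : ℝ) ≤ (n : ℝ) ^ (2 - ε1) := Real.one_le_rpow hn1 (by linarith)
      have f3 := mul_le_mul_of_nonneg_left f1 (Nat.cast_nonneg C : (0 : ℝ) ≤ C)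
      linarith
    have hpow : (n : ℝ) ^ (ε1 / 2) * (n : ℝ) ^ (2 - ε1) = (n : ℝ) ^ (2 - ε1 / 2) := by
      rw [← Real.rpow_add (by linarith)]
      congr 1
      ring
    calc 1024 * ((c : ℝ) + 1) * (C + 1) ^ 2 * (L : ℝ) ^ (2 * C + 1) * (s + 1)
        ≤ 1024 * ((c : ℝ) + 1) * (C + 1) ^ 2 * (K * (n : ℝ) ^ (ε1 / 2)) *
          ((C + 1) * (n : ℝ) ^ (2 - ε1)) := by
          refine mul_le_mul (mul_le_mul_of_nonneg_left hKn (by positivity)) hs2 (by positivity)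
            (by positivity)
      _ = 1024 * ((c : ℝ) + 1) * (C + 1) ^ 3 * K *
          ((n : ℝ) ^ (ε1 / 2) * (n : ℝ) ^ (2 - ε1)) := by ring
      _ = 1024 * ((c : ℝ) + 1) * (C + 1) ^ 3 * K * (n : ℝ) ^ (2 - ε1 / 2) := by rw [hpow]
      _ ≤ ((1024 * (c + 1) * (C + 1) ^ 3 * (K + 1) + 3 * C + 1 : ℕ) : ℝ) *
          (n : ℝ) ^ (2 - ε1 / 2) := by
          refine mul_le_mul_of_nonneg_right ?_ (by positivity)
          push_cast
          have : (0 : ℝ) ≤ 1024 * ((c : ℝ) + 1) * (C + 1) ^ 3 := by positivity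
          have h0 : (0 : ℝ) ≤ C := Nat.cast_nonneg C
          linarith
  · have hk1 : 1 ≤ k := by
      rw [hk]
      exact Nat.mul_pos (by positivity) (Nat.one_le_pow _ _ hL1)
    have e1 : c * L + 1 ≤ (c + 1) * L := by nlinarith
    have hLC1 : 1 ≤ L ^ C := Nat.one_le_pow _ _ hL1
    have e2 : 2 * k * t + 2 ≤ 2 * k * ((C + 1) * L ^ C) := by
      have : t + 1 ≤ (C + 1) * L ^ C := by nlinarith
      have := Nat.mul_le_mul_left (2 * k) this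
      nlinarith
    have e3 : 2 * (c * L + 1) * (2 * k * t + 2) ≤
        2 * ((c + 1) * L) * (2 * k * ((C + 1) * L ^ C)) :=
      Nat.mul_le_mul (Nat.mul_le_mul_left 2 e1) e2
    have e4 : 2 * ((c + 1) * L) * (2 * k * ((C + 1) * L ^ C)) =
        1024 * (c + 1) * (C + 1) ^ 3 * L ^ (3 * C + 1) := by
      rw [hk]; ring
    rw [e4] at e3
    refine e3.trans (Nat.mul_le_mul ?_ (Nat.pow_le_pow_right hL1 ?_))
    · have : 1024 * (c + 1) * (C + 1) ^ 3 * 1 ≤ 1024 * (c + 1) * (C + 1) ^ 3 * (K + 1) :=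
        Nat.mul_le_mul_left _ (by omega)
      omega
    · have : 0 < 1024 * (c + 1) * (C + 1) ^ 3 * (K + 1) := by positivity
      omega

end Pool.Agent.J4H36.IX
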